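import Mathlib
import Pool.Agent.H811R2.T.K

/-!
# Homogeneous nonlinearities of even degree: on average boundedly many closed orbits around the focus

We consider the planar systems `x' = μ x - y + P(x, y)`, `y' = x + μ y + Q(x, y)` with `P`, `Q`
homogeneous of the same even degree `n`; in the complex notation `z = x + i y`
`z' = (μ + i) z + ∑ c_j z ^ j z̄ ^ (n - j)` with arbitrary complex numbers `c_0, …, c_n`.  The mean number
of closed orbits which surround the origin, over the parameters `μ` in `[-M, M]`, `M ≥ 1`, is at most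
an absolute constant `K`, which depends neither on the degree `n` nor on the coefficients.

The proof (the system is reduced to a trigonometric Abel equation) is in the starting library,
`Pool.Agent.H811R2`.
-/

set_option autoImplicit false

open Set MeasureTheory
open scoped ENNReal

namespace Pool.Agent.Results.MP_95e7ec_an.HomogeneousNonlinearities

/-- The vector field `(μ + i) z + ∑_{j ≤ n} c_j z ^ j z̄ ^ (n - j)`. -/
noncomputable def field (n : ℕ) (c : ℕ → ℂ) (μ : ℝ) (z : ℂ) : ℂ :=
  ((μ : ℂ) + Complex.I) * z +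
    ∑ j ∈ Finset.range (n + 1), c j * (z ^ j * (starRingEnd ℂ) z ^ (n - j))

/-- The closed orbits of `z' = V z` which surround the origin: the ranges `C` of the periodic
solutions such that `0` is not in `C` and the component of `0` in the complement of `C` is bounded. -/
def orbitsAround (V : ℂ → ℂ) : Set (Set ℂ) :=
  {C | (∃ γ : ℝ → ℂ, ∃ T : ℝ, 0 < T ∧ (∀ t, HasDerivAt γ (V (γ t)) t) ∧
      (∀ t, γ (t + T) = γ t) ∧ C = Set.range γ) ∧
    (0 : ℂ) ∉ C ∧ Bornology.IsBounded (connectedComponentIn Cᶜ 0)}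

/-- **Homogeneous nonlinearities of even degree.** There is a constant `K` such that for every even
`n ≥ 2`, all complex numbers `c_0, …, c_n` and every `M ≥ 1` the number of the closed orbits of
`z' = (μ + i) z + ∑_{j ≤ n} c_j z ^ j z̄ ^ (n - j)` which surround the origin

* has, as a function of `μ ∈ [-M, M]`, a measurable majorant whose mean over `[-M, M]` is at most `K`;
* is greater than `N` only for a set of `μ ∈ [-M, M]` of outer measure at most `2 M K / (N + 1)`. -/
theorem result :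
    ∃ K : ℝ, 0 ≤ K ∧ ∀ (n : ℕ) (c : ℕ → ℂ), 2 ≤ n → Even n → ∀ M : ℝ, 1 ≤ M →
      (∃ g : ℝ → ℝ≥0∞, Measurable g ∧
        (∀ μ ∈ Icc (-M) M, (((orbitsAround (field n c μ)).encard : ℕ∞) : ℝ≥0∞) ≤ g μ) ∧
        ∫⁻ μ in Icc (-M) M, g μ ≤ ENNReal.ofReal (K * (2 * M))) ∧
      ∀ N : ℕ, volume {μ ∈ Icc (-M) M | (N : ℕ∞) < (orbitsAround (field n c μ)).encard} ≤
        ENNReal.ofReal (K * (2 * M) / (N + 1)) := by
  obtain ⟨K, hK0, hK⟩ := Pool.Agent.H811R2.Quad.even_mean
  refine ⟨K, hK0, fun n c hn hev M hM => ?_⟩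
  obtain ⟨g, hg1, hg2, hg3⟩ := hK n c hn hev M hM
  refine ⟨⟨g, hg1, hg2, hg3⟩, fun N => ?_⟩
  have hsub : {μ ∈ Icc (-M) M | (N : ℕ∞) < (orbitsAround (field n c μ)).encard} ⊆
      {μ | ((N + 1 : ℕ) : ℝ≥0∞) ≤ g μ} ∩ Icc (-M) M := by
    rintro μ ⟨h1, h2⟩
    refine ⟨le_trans ?_ (hg2 μ h1), h1⟩
    have h3 : ((N + 1 : ℕ) : ℕ∞) ≤ (orbitsAround (field n c μ)).encard := by
      have := Order.add_one_le_of_lt h2
      exact_mod_cast this
    exact_mod_cast h3
  have hmk := meas_ge_le_lintegral_div (μ := volume.restrict (Icc (-M) M)) hg1.aemeasurable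
    (ε := ((N + 1 : ℕ) : ℝ≥0∞)) (by simp) (by simp)
  have hms : MeasurableSet {μ | ((N + 1 : ℕ) : ℝ≥0∞) ≤ g μ} := measurableSet_le measurable_const hg1
  rw [Measure.restrict_apply hms] at hmk
  refine (measure_mono hsub).trans (hmk.trans ?_)
  refine (ENNReal.div_le_div_right hg3 _).trans (le_of_eq ?_)
  rw [ENNReal.ofReal_div_of_pos (by positivity)]
  congr 1
  rw [show ((N : ℝ) + 1) = ((N + 1 : ℕ) : ℝ) by push_cast; ring, ENNReal.ofReal_natCast]

end Pool.Agent.Results.MP_95e7ec_an.HomogeneousNonlinearities
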