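import Pool.Agent.W960.HS.CB5

/-! # The mean number of limit cycles of the Kostlan ensemble is at most linear in the degree

For planar polynomial systems of degree at most `n` with independent normal coefficients whose
variances are the multinomial coefficients `n! / (i! j! (n - i - j)!)` (the Kostlan, or Shub-Smale,
ensemble: the one invariant under the rotations of the projective plane) the expected number of all
closed orbits in the plane is at most `C n`. If such noise of size `σ` is added to an arbitrary system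
`d` of degree at most `n`, the expected number is at most `C n (1 + |d| / σ) ^ 3`, where `|d|` is the
Bombieri-Weyl norm; it is linear in `n` if the noise is comparable to the system. No logarithm of the
degree occurs.

The proof is in the starting helper files `Pool.Agent.W960.HS`, `Pool.Agent.W960.HR`,
`Pool.Agent.H709R2`. -/

open MeasureTheory
open scoped ENNReal

namespace Pool.Agent.Results.MP_95e7ec_an.KostlanMean

/-- the exponents `(i,j)` of all monomials `x^i y^j` of degree at most `n` -/
def exponents (n : ℕ) : Finset (ℕ × ℕ) :=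
  (Finset.range (n + 1) ×ˢ Finset.range (n + 1)).filter fun m => m.1 + m.2 ≤ n

/-- The number of all nonconstant closed orbits (limit cycles or not) in the plane `ℝ²` of the system
`x' = ∑ a_{ij} x^i y^j`, `y' = ∑ b_{ij} x^i y^j`, `i + j ≤ n`, where `c (i,j) = (a_{ij}, b_{ij})`. -/
noncomputable def closedOrbits (n : ℕ) (c : exponents n → ℝ × ℝ) : ℝ≥0∞ :=
  (({C : Set (ℝ × ℝ) | ∃ γ : ℝ → ℝ × ℝ, ∃ T : ℝ, 0 < T ∧
    (∀ t : ℝ, HasDerivAt γ
      (∑ m : exponents n, (c m).1 * ((γ t).1 ^ m.1.1 * (γ t).2 ^ m.1.2),
       ∑ m : exponents n, (c m).2 * ((γ t).1 ^ m.1.1 * (γ t).2 ^ m.1.2)) t) ∧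
    (∀ t : ℝ, γ (t + T) = γ t) ∧ (∃ s t : ℝ, γ s ≠ γ t) ∧ C = Set.range γ}.encard : ℕ∞) : ℝ≥0∞)

/-- the multinomial coefficient `n! / (i! j! (n - i - j)!)` of `m = (i, j)`, written as
`(n choose j) (n - j choose i)` -/
def multinomial (n : ℕ) (m : ℕ × ℕ) : ℝ := (n.choose m.2 : ℝ) * ((n - m.2).choose m.1 : ℝ)

/-- the system with coefficients `d + σ √multinomial g`: noise of the Kostlan ensemble of size `σ` -/
noncomputable def noisy (n : ℕ) (d : exponents n → ℝ × ℝ) (σ : ℝ) (g : exponents n → ℝ × ℝ) :
    exponents n → ℝ × ℝ :=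
  fun m => ((d m).1 + σ * (√(multinomial n m.1) * (g m).1),
    (d m).2 + σ * (√(multinomial n m.1) * (g m).2))

/-- the Bombieri-Weyl norm of a system: the coefficients are divided by the square roots of the
multinomial coefficients -/
noncomputable def bombieri (n : ℕ) (d : exponents n → ℝ × ℝ) : ℝ :=
  √(∑ m : exponents n, ((d m).1 ^ 2 + (d m).2 ^ 2) / multinomial n m.1)

/-- the law of a vector of independent standard normal variables -/
noncomputable def gaussian (n : ℕ) : Measure (exponents n → ℝ × ℝ) :=
  Measure.pi fun _ : exponents n =>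
    (ProbabilityTheory.gaussianReal 0 1).prod (ProbabilityTheory.gaussianReal 0 1)

lemma closedOrbits_eq (n : ℕ) (c : exponents n → ℝ × ℝ) : closedOrbits n c = H709R2.NP c := by
  have h1 : ∀ p : ℝ × ℝ, (∑ m : exponents n, (c m).1 * (p.1 ^ m.1.1 * p.2 ^ m.1.2),
      ∑ m : exponents n, (c m).2 * (p.1 ^ m.1.1 * p.2 ^ m.1.2)) = H709R2.fld c p := by
    intro p
    unfold H709R2.fld
    ext
    · simp only [Prod.fst_sum, Prod.smul_fst, smul_eq_mul]
      exact Finset.sum_congr rfl fun m _ => mul_comm _ _
    · simp only [Prod.snd_sum, Prod.smul_snd, smul_eq_mul]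
      exact Finset.sum_congr rfl fun m _ => mul_comm _ _
  unfold H709R2.NP closedOrbits H709R2.ClosedOrbit
  simp only [h1]

lemma multinomial_pos {n : ℕ} (m : exponents n) : 0 < multinomial n m.1 := by
  have h : m.1.1 + m.1.2 ≤ n := (Finset.mem_filter.1 m.2).2
  unfold multinomial
  have h1 : 0 < n.choose m.1.2 := Nat.choose_pos (by omega)
  have h2 : 0 < (n - m.1.2).choose m.1.1 := Nat.choose_pos (by omega)
  positivity

lemma noisy_eq (n : ℕ) (d : exponents n → ℝ × ℝ) (σ : ℝ) (g : exponents n → ℝ × ℝ) :
    noisy n d σ g = W960.HS.sc n (fun m : W960.HR.T n =>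
      (√(multinomial n m.1))⁻¹ • d m + σ • g m) := by
  funext m
  have h0 : 0 < √(multinomial n m.1) := Real.sqrt_pos.2 (multinomial_pos m)
  have hm : W960.HS.sm n m.1 = √(multinomial n m.1) := rfl
  unfold noisy W960.HS.sc
  rw [hm]
  ext
  · simp only [Prod.smul_fst, Prod.fst_add, smul_eq_mul]
    field_simp
  · simp only [Prod.smul_snd, Prod.snd_add, smul_eq_mul]
    field_simp

lemma sn_eq (n : ℕ) (d : exponents n → ℝ × ℝ) :
    W960.HR.sn (fun m : W960.HR.T n => (√(multinomial n m.1))⁻¹ • d m) =
      ∑ m : exponents n, ((d m).1 ^ 2 + (d m).2 ^ 2) / multinomial n m.1 := by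
  unfold W960.HR.sn H709R2.sq
  refine Finset.sum_congr rfl fun m _ => ?_
  have h0 : 0 < multinomial n m.1 := multinomial_pos m
  have h1 : (√(multinomial n m.1))⁻¹ ^ 2 = (multinomial n m.1)⁻¹ := by
    rw [inv_pow, Real.sq_sqrt h0.le]
  simp only [Prod.smul_fst, Prod.smul_snd, smul_eq_mul, mul_pow, h1]
  ring

/-- **The mean number of limit cycles of the Kostlan ensemble is at most linear in the degree.** For
every `n ≥ 1`:

* for every system `d` and every `σ` the number of closed orbits of `noisy n d σ g` is a Borel function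
  of `g`;
* if the coefficients of `x^i y^j` in both equations are independent normal variables of mean `0` and
  variance `n! / (i! j! (n - i - j)!)`, the expected number of closed orbits in the plane is at most
  `10 ^ 51 * n`;
* for every system `d` of degree at most `n` and every `σ > 0`, if `g` is a vector of independent
  standard normal variables, the expected number of closed orbits of the system with coefficients
  `d + σ √multinomial g` is at most `10 ^ 51 * n * (1 + |d| / σ) ^ 3`, where `|d|` is the Bombieri-Weyl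
  norm of `d`. -/
theorem result (n : ℕ) (hn : 1 ≤ n) :
    (∀ (d : exponents n → ℝ × ℝ) (σ : ℝ), Measurable fun g => closedOrbits n (noisy n d σ g)) ∧
    ∫⁻ g, closedOrbits n (noisy n 0 1 g) ∂(gaussian n) ≤ ENNReal.ofReal (10 ^ 51 * n) ∧
    ∀ (d : exponents n → ℝ × ℝ) (σ : ℝ), 0 < σ →
      ∫⁻ g, closedOrbits n (noisy n d σ g) ∂(gaussian n) ≤
        ENNReal.ofReal (10 ^ 51 * n * (1 + bombieri n d / σ) ^ 3) := by
  have key : ∀ (d : exponents n → ℝ × ℝ) (σ : ℝ), 0 < σ →
      ∫⁻ g, closedOrbits n (noisy n d σ g) ∂(gaussian n) ≤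
        ENNReal.ofReal (10 ^ 51 * n * (1 + bombieri n d / σ) ^ 3) := by
    intro d σ hσ
    have h := W960.HS.kostlan_smoothed hn
      (fun m : W960.HR.T n => (√(multinomial n m.1))⁻¹ • d m) hσ
    rw [sn_eq] at h
    have e : ∀ g, closedOrbits n (noisy n d σ g) =
        H709R2.NP (W960.HS.sc n (fun m : W960.HR.T n =>
          (√(multinomial n m.1))⁻¹ • d m + σ • g m)) := fun g => by
      rw [closedOrbits_eq, noisy_eq]
      rfl
    calc ∫⁻ g, closedOrbits n (noisy n d σ g) ∂(gaussian n)
        = ∫⁻ g, H709R2.NP (W960.HS.sc n (fun m : W960.HR.T n =>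
          (√(multinomial n m.1))⁻¹ • d m + σ • g m)) ∂(W960.HR.GP (W960.HR.T n)) :=
        lintegral_congr e
      _ ≤ _ := h
  refine ⟨fun d σ => ?_, ?_, key⟩
  · have hc : (fun g => closedOrbits n (noisy n d σ g)) =
        fun g => H709R2.NP (noisy n d σ g) := funext fun g => closedOrbits_eq n _
    rw [hc]
    refine H709R2.measurable_NP.comp ?_
    refine Continuous.measurable ?_
    unfold noisy
    fun_prop
  · have h := key 0 1 one_pos
    have h0 : bombieri n 0 = 0 := by
      unfold bombieri
      simp
    rw [h0] at h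
    simpa using h

end Pool.Agent.Results.MP_95e7ec_an.KostlanMean
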