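import Pool.Agent.N224.SF.All
import Pool.Agent.N224.Hil.All
import Pool.Agent.Y96.HP.Pers

/-! # Robust limit cycles, of all sizes: the exact order of growth is the square of the degree

A polynomial vector field of degree at most `n` has at most `10 ^ 5 n² / η²` closed orbits in the
whole plane, of any size and shape, which survive the rotation of the field by the angle `η` or
`-η`. The bound does not depend on the coefficients, and there is no condition on the sizes or the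
positions of the closed orbits. For fixed `η` the order `n²` is exact. -/

open Set MeasureTheory
open scoped ENNReal

namespace Pool.Agent.Results.MP_95e7ec_an.ScaleFreeSurvival

/-- the vector field `(P, Q)` rotated by the angle `a` -/
noncomputable def rotated (P Q : MvPolynomial (Fin 2) ℝ) (a : ℝ) (z : ℝ × ℝ) : ℝ × ℝ :=
  (Real.cos a * MvPolynomial.eval ![z.1, z.2] P - Real.sin a * MvPolynomial.eval ![z.1, z.2] Q,
    Real.sin a * MvPolynomial.eval ![z.1, z.2] P + Real.cos a * MvPolynomial.eval ![z.1, z.2] Q)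

/-- all closed orbits in the plane (ranges of nonconstant periodic solutions, limit cycles or not)
of the system `x' = P, y' = Q` -/
def closedOrbits (P Q : MvPolynomial (Fin 2) ℝ) : Set (Set (ℝ × ℝ)) :=
  {C | ∃ γ : ℝ → ℝ × ℝ, ∃ T : ℝ, 0 < T ∧
    (∀ t : ℝ, HasDerivAt γ
      (MvPolynomial.eval ![(γ t).1, (γ t).2] P, MvPolynomial.eval ![(γ t).1, (γ t).2] Q) t) ∧
    (∀ t : ℝ, γ (t + T) = γ t) ∧ (∃ s t : ℝ, γ s ≠ γ t) ∧ C = Set.range γ}

/-- the limit cycles: closed orbits with a neighbourhood which contains no other closed orbit -/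
def limitCycles (P Q : MvPolynomial (Fin 2) ℝ) : Set (Set (ℝ × ℝ)) :=
  {C | C ∈ closedOrbits P Q ∧
    ∃ U : Set (ℝ × ℝ), IsOpen U ∧ C ⊆ U ∧ ∀ D ∈ closedOrbits P Q, D ⊆ U → D = C}

/-- The closed orbit `C` of `(P, Q)` survives the rotations of the field up to the angle `η`: there
is a continuous path `τ ↦ γ τ`, `0 ≤ τ ≤ 1`, of pairwise different closed orbits of the fields
rotated by angles `a τ`, which starts with `C` at the angle `0`, ends at the angle `η`, and whose
angles in between lie strictly between `0` and `η`. -/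
def Survives (P Q : MvPolynomial (Fin 2) ℝ) (η : ℝ) (C : Set (ℝ × ℝ)) : Prop :=
  ∃ (a : ℝ → ℝ) (γ : ℝ → ℝ → ℝ × ℝ) (T : ℝ → ℝ),
    ContinuousOn a (Icc 0 1) ∧ a 0 = 0 ∧ a 1 = η ∧
    (∀ τ ∈ Ioo 0 1, min 0 η < a τ ∧ a τ < max 0 η) ∧
    ContinuousOn (fun q : ℝ × ℝ => γ q.1 q.2) (Icc 0 1 ×ˢ univ) ∧ ContinuousOn T (Icc 0 1) ∧
    (∀ τ ∈ Icc 0 1, 0 < T τ ∧ (∀ t, HasDerivAt (γ τ) (rotated P Q (a τ) (γ τ t)) t) ∧
      (∀ t, γ τ (t + T τ) = γ τ t) ∧ (∃ s t, γ τ s ≠ γ τ t)) ∧
    (∀ τ ∈ Icc 0 1, ∀ τ' ∈ Icc 0 1, range (γ τ) = range (γ τ') → τ = τ') ∧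
    C = range (γ 0)

/-- the length of the set of angles `η` in `(-1, 1)` such that the closed orbit `C` survives the
rotations up to the angle `η` -/
noncomputable def survival (P Q : MvPolynomial (Fin 2) ℝ) (C : Set (ℝ × ℝ)) : ℝ≥0∞ :=
  volume {η : ℝ | η ∈ Ioo (-1) 1 ∧ Survives P Q η C}

/-! ### proofs -/

lemma survives_iff (P Q : MvPolynomial (Fin 2) ℝ) (η : ℝ) (C : Set (ℝ × ℝ)) :
    Survives P Q η C ↔ W960.HP.PersG (H709R2.field P Q) (fun _ _ => True) η C := by
  unfold Survives W960.HP.PersG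
  refine exists_congr fun a => exists_congr fun γ => exists_congr fun T => ?_
  simp only [and_true]
  rfl

variable {n : ℕ} {P Q : MvPolynomial (Fin 2) ℝ}

/-- every limit cycle has positive survival -/
lemma pos {C : Set (ℝ × ℝ)} (hC : C ∈ limitCycles P Q) : 0 < survival P Q C := by
  have hF : ContDiff ℝ 2 (H709R2.field P Q) := H709R2.contDiff_field P Q
  obtain ⟨hC1, U, hU, hCU, hiso⟩ := hC
  have h1 := Y96.HP.pos_pers hF hC1 hU hCU (fun D hD hDU => hiso D hD hDU)
    (G := fun _ _ => True)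
    (fun _ _ ε₀ hε₀ _ _ _ _ => ⟨ε₀, hε₀, le_rfl, fun _ _ _ => trivial⟩) one_pos
  unfold survival
  simp only [survives_iff]
  exact h1

/-- one side -/
lemma one_side (hP : P.totalDegree ≤ n) (hQ : Q.totalDegree ≤ n) {σ η : ℝ}
    (hσ : σ = 1 ∨ σ = -1) (hη : 0 < η) (hη1 : η ≤ 1) :
    (({C | Survives P Q (σ * η) C}.encard : ℕ∞) : ℝ≥0∞) ≤
      ENNReal.ofReal (50000 * n ^ 2 / η ^ 2) := by
  obtain ⟨N, h1, h2⟩ := N224.SF.fin2 N224.SF.allFam N224.SF.allCount2 N224.SF.sym N224.SF.allBez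
    N224.SF.time n P Q hP hQ σ η hσ hη hη1
  have h3 : {C | Survives P Q (σ * η) C} =
      {C | W960.HP.PersG (H709R2.field P Q) (fun _ _ => True) (σ * η) C} := by
    ext C
    exact survives_iff P Q _ C
  rw [h3]
  refine (ENat.toENNReal_le.2 h1).trans ?_
  rw [ENat.toENNReal_coe, ← ENNReal.ofReal_natCast]
  exact ENNReal.ofReal_le_ofReal h2

/-- the number of the surviving closed orbits -/
lemma count (hP : P.totalDegree ≤ n) (hQ : Q.totalDegree ≤ n) {η : ℝ} (hη : 0 < η) (hη1 : η ≤ 1) :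
    (({C | C ∈ closedOrbits P Q ∧ (Survives P Q η C ∨ Survives P Q (-η) C)}.encard : ℕ∞) :
      ℝ≥0∞) ≤ ENNReal.ofReal (10 ^ 5 * n ^ 2 / η ^ 2) := by
  have h1 := one_side hP hQ (σ := 1) (Or.inl rfl) hη hη1
  have h2 := one_side hP hQ (σ := -1) (Or.inr rfl) hη hη1
  have h3 : {C | C ∈ closedOrbits P Q ∧ (Survives P Q η C ∨ Survives P Q (-η) C)} ⊆
      {C | Survives P Q (1 * η) C} ∪ {C | Survives P Q (-1 * η) C} := by
    rintro C ⟨-, h | h⟩
    · left
      simpa using h
    · right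
      simpa using h
  have h4 := ENat.toENNReal_le.2 ((encard_le_encard h3).trans (encard_union_le _ _))
  rw [ENat.toENNReal_add] at h4
  refine h4.trans ((add_le_add h1 h2).trans (le_of_eq ?_))
  rw [← ENNReal.ofReal_add (by positivity) (by positivity)]
  congr 1
  ring

/-- shorter angles -/
lemma survives_mono {η η' : ℝ} {C : Set (ℝ × ℝ)} (h0 : 0 < η') (h1 : η' ≤ η) :
    (Survives P Q η C → Survives P Q η' C) ∧
      (Survives P Q (-η) C → Survives P Q (-η') C) := by
  constructor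
  · intro h
    have h2 := W960.HP.persG_mono (σ := 1) (Or.inl rfl) h0 h1
      (by rw [one_mul]; exact (survives_iff P Q η C).1 h)
    rw [one_mul] at h2
    exact (survives_iff P Q η' C).2 h2
  · intro h
    have h2 := W960.HP.persG_mono (σ := -1) (Or.inr rfl) h0 h1
      (by rw [neg_one_mul]; exact (survives_iff P Q (-η) C).1 h)
    rw [neg_one_mul] at h2
    exact (survives_iff P Q (-η') C).2 h2

/-- a closed orbit with long survival survives up to half of it in one direction -/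
lemma of_survival {t : ℝ} (ht : 0 < t) {C : Set (ℝ × ℝ)}
    (h : ENNReal.ofReal t < survival P Q C) :
    Survives P Q (t / 2) C ∨ Survives P Q (-(t / 2)) C := by
  have h1 : ∃ η : ℝ, η ∈ Ioo (-1:ℝ) 1 ∧ Survives P Q η C ∧ t / 2 < |η| := by
    by_contra hcon
    push Not at hcon
    have h2 : {η : ℝ | η ∈ Ioo (-1:ℝ) 1 ∧ Survives P Q η C} ⊆
        Icc (-(t / 2)) (t / 2) := fun η hη => abs_le.1 (hcon η hη.1 hη.2)
    have h3 := measure_mono (μ := (volume : Measure ℝ)) h2
    rw [Real.volume_Icc, show t / 2 - -(t / 2) = t by ring] at h3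
    exact absurd h (not_lt.2 h3)
  obtain ⟨η, hη, hS, hlt⟩ := h1
  rcases le_total 0 η with h0 | h0
  · rw [abs_of_nonneg h0] at hlt
    exact Or.inl ((survives_mono (by positivity) hlt.le).1 hS)
  · rw [abs_of_nonpos h0] at hlt
    refine Or.inr ((survives_mono (η := -η) (by positivity) hlt.le).2 ?_)
    rw [neg_neg]
    exact hS

/-- the sum of the powers of the survivals -/
lemma powers (hP : P.totalDegree ≤ n) (hQ : Q.totalDegree ≤ n) {κ : ℝ} (hκ : 0 < κ)
    (hκ1 : κ ≤ 1) : ∑' C : closedOrbits P Q, survival P Q C ^ (2 + κ) ≤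
      ENNReal.ofReal (10 ^ 7 * n ^ 2 / κ) := by
  have h1 := N224.SF.pow (Set (ℝ × ℝ)) (closedOrbits P Q) (survival P Q) (4 * 10 ^ 5 * n ^ 2)
    (by positivity) (fun C _ => ?_) (fun t ht ht2 => ?_) κ hκ hκ1
  · refine h1.trans (ENNReal.ofReal_le_ofReal ?_)
    have : (0:ℝ) ≤ (n:ℝ) ^ 2 := by positivity
    exact div_le_div_of_nonneg_right (by nlinarith) hκ.le
  · refine (measure_mono (show {η : ℝ | η ∈ Ioo (-1:ℝ) 1 ∧ Survives P Q η C} ⊆
      Ioo (-1:ℝ) 1 from fun η hη => hη.1)).trans ?_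
    rw [Real.volume_Ioo]
    norm_num
  · have h2 := count hP hQ (η := t / 2) (by positivity) (by linarith)
    have h3 : {C | C ∈ closedOrbits P Q ∧ ENNReal.ofReal t < survival P Q C} ⊆
        {C | C ∈ closedOrbits P Q ∧ (Survives P Q (t / 2) C ∨ Survives P Q (-(t / 2)) C)} :=
      fun C hC => ⟨hC.1, of_survival ht hC.2⟩
    refine (ENat.toENNReal_le.2 (encard_le_encard h3)).trans (h2.trans (le_of_eq ?_))
    congr 1
    field_simp
    ring

/-- **The number of limit cycles which survive the rotation of the field by a fixed angle grows like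
the square of the degree.** For every polynomial vector field `(P, Q)` of degree at most `n`:

* for `0 < η ≤ 1` at most `10 ^ 5 n² / η²` closed orbits, of any size, survive the rotations of the
  field up to `η` or up to `-η`;
* for `0 < κ ≤ 1` the sum over all closed orbits of the powers `2 + κ` of their survival lengths is at
  most `10 ^ 7 n² / κ`;
* every limit cycle has positive survival length.

Conversely, for every `k ≥ 1` there is a polynomial vector field of degree at most `16 k - 1` with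
at least `4 k²` limit cycles which survive all rotations by angles less than `π / 4` in absolute
value. -/
theorem result :
    (∀ (n : ℕ) (P Q : MvPolynomial (Fin 2) ℝ), P.totalDegree ≤ n → Q.totalDegree ≤ n →
      (∀ η : ℝ, 0 < η → η ≤ 1 →
        (({C | C ∈ closedOrbits P Q ∧ (Survives P Q η C ∨ Survives P Q (-η) C)}.encard : ℕ∞) :
          ℝ≥0∞) ≤ ENNReal.ofReal (10 ^ 5 * n ^ 2 / η ^ 2)) ∧
      (∀ κ : ℝ, 0 < κ → κ ≤ 1 →
        ∑' C : closedOrbits P Q, survival P Q C ^ (2 + κ) ≤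
          ENNReal.ofReal (10 ^ 7 * n ^ 2 / κ)) ∧
      (∀ C ∈ limitCycles P Q, 0 < survival P Q C)) ∧
    (∀ k : ℕ, 1 ≤ k → ∃ P Q : MvPolynomial (Fin 2) ℝ, P.totalDegree ≤ 16 * k - 1 ∧
      Q.totalDegree ≤ 16 * k - 1 ∧
      (4 * k ^ 2 : ℕ∞) ≤ {C | C ∈ limitCycles P Q ∧
        ∀ η : ℝ, 0 < |η| → |η| < Real.pi / 4 → Survives P Q η C}.encard) := by
  refine ⟨fun n P Q hP hQ => ⟨fun η hη hη1 => count hP hQ hη hη1,
    fun κ hκ hκ1 => powers hP hQ hκ hκ1, fun C hC => pos hC⟩, fun k hk => ?_⟩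
  obtain ⟨P, Q, hP, hQ, r, hr, h⟩ := N224.Hil.lb k hk
  refine ⟨P, Q, hP, hQ, h.trans (encard_le_encard ?_)⟩
  rintro C ⟨h1, ⟨U, h2, h3, h4⟩, h5, h6, h7⟩
  refine ⟨⟨h1, U, h2, h3, h4⟩, fun η hη hη' => ?_⟩
  obtain ⟨a, γ, T, g1, g2, g3, g4, g5, g6, g7, g8, g9⟩ := h7 η hη hη'
  exact ⟨a, γ, T, g1, g2, g3, g4, g5, g6, fun τ hτ => ⟨(g7 τ hτ).1, (g7 τ hτ).2.1,
    (g7 τ hτ).2.2.1, (g7 τ hτ).2.2.2.1⟩, g8, g9⟩

end Pool.Agent.Results.MP_95e7ec_an.ScaleFreeSurvival
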