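import Pool.Agent.N224.Hil.All
import Pool.Agent.Y96.HP.Pers

/-! # Surviving limit cycles: the exact order of growth is the square of the degree

For every polynomial vector field of degree at most `n` at most
`28 π l (1 + l) n² (1 + log₂ (R / r)) / η` closed orbits with diameter in `[r, R]` survive the
rotation of the field by the angle `η` or `-η`, with diameters within a factor of `l` of their own.
In particular, there are at most a constant times `n²` limit cycles of comparable diameters which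
survive the rotations up to a fixed angle, and there are fields with a constant times `n²` such
limit cycles. -/

open Set MeasureTheory
open scoped ENNReal

namespace Pool.Agent.Results.MP_95e7ec_an.SharpSurvival

/-- the vector field `(P, Q)` rotated by the angle `a` -/
noncomputable def rotated (P Q : MvPolynomial (Fin 2) ℝ) (a : ℝ) (z : ℝ × ℝ) : ℝ × ℝ :=
  (Real.cos a * MvPolynomial.eval ![z.1, z.2] P - Real.sin a * MvPolynomial.eval ![z.1, z.2] Q,
    Real.sin a * MvPolynomial.eval ![z.1, z.2] P + Real.cos a * MvPolynomial.eval ![z.1, z.2] Q)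

/-- all closed orbits in the plane (ranges of nonconstant periodic solutions, limit cycles or not)
of the system `x' = P, y' = Q` -/
def closedOrbits (P Q : MvPolynomial (Fin 2) ℝ) : Set (Set (ℝ × ℝ)) :=
  {C | ∃ γ : ℝ → ℝ × ℝ, ∃ T : ℝ, 0 < T ∧
    (∀ t : ℝ, HasDerivAt γ
      (MvPolynomial.eval ![(γ t).1, (γ t).2] P, MvPolynomial.eval ![(γ t).1, (γ t).2] Q) t) ∧
    (∀ t : ℝ, γ (t + T) = γ t) ∧ (∃ s t : ℝ, γ s ≠ γ t) ∧ C = Set.range γ}

/-- the limit cycles: closed orbits with a neighbourhood which contains no other closed orbit -/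
def limitCycles (P Q : MvPolynomial (Fin 2) ℝ) : Set (Set (ℝ × ℝ)) :=
  {C | C ∈ closedOrbits P Q ∧
    ∃ U : Set (ℝ × ℝ), IsOpen U ∧ C ⊆ U ∧ ∀ D ∈ closedOrbits P Q, D ⊆ U → D = C}

/-- the Euclidean diameter of a subset of the plane -/
noncomputable def diam (C : Set (ℝ × ℝ)) : ℝ :=
  sSup {d | ∃ x ∈ C, ∃ y ∈ C, d = √((x.1 - y.1) ^ 2 + (x.2 - y.2) ^ 2)}

/-- The closed orbit `C` of `(P, Q)` survives the rotations of the field up to the angle `η`, with
size factor `l`: there is a continuous path `τ ↦ γ τ`, `0 ≤ τ ≤ 1`, of pairwise different closed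
orbits of the fields rotated by angles `a τ`, which starts with `C` at the angle `0`, ends at the
angle `η`, whose angles in between lie strictly between `0` and `η`, and whose diameters lie between
`diam C / l` and `l * diam C`. -/
def Survives (P Q : MvPolynomial (Fin 2) ℝ) (l η : ℝ) (C : Set (ℝ × ℝ)) : Prop :=
  ∃ (a : ℝ → ℝ) (γ : ℝ → ℝ → ℝ × ℝ) (T : ℝ → ℝ),
    ContinuousOn a (Icc 0 1) ∧ a 0 = 0 ∧ a 1 = η ∧
    (∀ τ ∈ Ioo 0 1, min 0 η < a τ ∧ a τ < max 0 η) ∧
    ContinuousOn (fun q : ℝ × ℝ => γ q.1 q.2) (Icc 0 1 ×ˢ univ) ∧ ContinuousOn T (Icc 0 1) ∧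
    (∀ τ ∈ Icc 0 1, 0 < T τ ∧ (∀ t, HasDerivAt (γ τ) (rotated P Q (a τ) (γ τ t)) t) ∧
      (∀ t, γ τ (t + T τ) = γ τ t) ∧ (∃ s t, γ τ s ≠ γ τ t) ∧
      (diam C / l ≤ diam (range (γ τ)) ∧ diam (range (γ τ)) ≤ l * diam C)) ∧
    (∀ τ ∈ Icc 0 1, ∀ τ' ∈ Icc 0 1, range (γ τ) = range (γ τ') → τ = τ') ∧
    C = range (γ 0)

/-- the length of the set of angles `η` in `(-π, π)` such that the closed orbit `C` survives the
rotations up to the angle `η` -/
noncomputable def survival (P Q : MvPolynomial (Fin 2) ℝ) (l : ℝ) (C : Set (ℝ × ℝ)) : ℝ≥0∞ :=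
  volume {η : ℝ | η ∈ Ioo (-Real.pi) Real.pi ∧ Survives P Q l η C}

/-- the closed orbits of diameter between `r` and `R` -/
def between (P Q : MvPolynomial (Fin 2) ℝ) (r R : ℝ) : Set (Set (ℝ × ℝ)) :=
  {C | C ∈ closedOrbits P Q ∧ r ≤ diam C ∧ diam C ≤ R}

/-! ### proofs -/

/-- the Euclidean distance -/
noncomputable def e2 (x y : ℝ × ℝ) : ℝ := √((x.1 - y.1) ^ 2 + (x.2 - y.2) ^ 2)

lemma e2_eq (x y : ℝ × ℝ) : e2 x y = ‖(⟨x.1, x.2⟩ : ℂ) - ⟨y.1, y.2⟩‖ := by
  rw [Complex.norm_def, Complex.normSq_apply]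
  unfold e2
  congr 1
  simp only [Complex.sub_re, Complex.sub_im]
  ring

lemma e2_tri (x y z : ℝ × ℝ) : e2 x z ≤ e2 x y + e2 y z := by
  rw [e2_eq, e2_eq, e2_eq]
  exact norm_sub_le_norm_sub_add_norm_sub _ _ _

lemma e2_comm (x y : ℝ × ℝ) : e2 x y = e2 y x := by
  rw [e2_eq, e2_eq, norm_sub_rev]

lemma e2_cont : Continuous fun q : (ℝ × ℝ) × (ℝ × ℝ) => e2 q.1 q.2 := by
  unfold e2
  fun_prop

/-- the diameter of a compact set is attained -/
lemma diam_mem {D : Set (ℝ × ℝ)} (hD : IsCompact D) (hne : D.Nonempty) :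
    (∃ x ∈ D, ∃ y ∈ D, e2 x y = diam D) ∧ ∀ x ∈ D, ∀ y ∈ D, e2 x y ≤ diam D :=
  N224.Hil.diam_mem hD hne

lemma survives_iff (P Q : MvPolynomial (Fin 2) ℝ) (l η : ℝ) (C : Set (ℝ × ℝ)) :
    Survives P Q l η C ↔ W960.HP.PersG (H709R2.field P Q)
      (fun _ D => N224.Hil.diam C / l ≤ N224.Hil.diam D ∧
        N224.Hil.diam D ≤ l * N224.Hil.diam C) η C := Iff.rfl

variable {n : ℕ} {P Q : MvPolynomial (Fin 2) ℝ}

lemma orbit_facts {C : Set (ℝ × ℝ)} (hC : C ∈ closedOrbits P Q) :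
    IsCompact C ∧ C.Nonempty ∧ 0 < diam C := by
  obtain ⟨γ, T, hT, hγ, hp, ⟨s, t, hst⟩, rfl⟩ := hC
  have hK := N224.Hil.orbit_compact hT (continuous_iff_continuousAt.2
    fun t => (hγ t).continuousAt) hp
  refine ⟨hK, range_nonempty _, ?_⟩
  refine lt_of_lt_of_le ?_ ((diam_mem hK (range_nonempty _)).2 _ ⟨s, rfl⟩ _ ⟨t, rfl⟩)
  rw [e2_eq, norm_pos_iff, sub_ne_zero]
  intro h
  rw [Complex.ext_iff] at h
  exact hst (Prod.ext h.1 h.2)

/-- every limit cycle has positive survival -/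
lemma pos {l : ℝ} (hl : 1 < l) {C : Set (ℝ × ℝ)} (hC : C ∈ limitCycles P Q) :
    0 < survival P Q l C := by
  have hF : ContDiff ℝ 2 (H709R2.field P Q) := H709R2.contDiff_field P Q
  obtain ⟨hC1, U, hU, hCU, hiso⟩ := hC
  obtain ⟨hK, hKne, hd⟩ := orbit_facts hC1
  obtain ⟨⟨x, hx, y, hy, hxy⟩, hub⟩ := diam_mem hK hKne
  have hl0 : 0 < l := by linarith
  -- a neighbourhood of `C`
  obtain ⟨ρ, hρ⟩ : ∃ ρ : ℝ, ρ = (l - 1) / 2 * diam C := ⟨_, rfl⟩
  have hρ0 : 0 < ρ := by
    rw [hρ]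
    exact mul_pos (by linarith) hd
  obtain ⟨V, hV⟩ : ∃ V : Set (ℝ × ℝ), V = ⋃ c ∈ C, {z | e2 z c < ρ} := ⟨_, rfl⟩
  have hVo : IsOpen V := by
    rw [hV]
    refine isOpen_biUnion fun c _ => ?_
    have h1 : Continuous fun z : ℝ × ℝ => e2 z c := e2_cont.comp (continuous_id.prodMk continuous_const)
    exact isOpen_lt h1 continuous_const
  have hCV : C ⊆ V := by
    intro c hc
    rw [hV, mem_iUnion₂]
    refine ⟨c, hc, ?_⟩
    show e2 c c < ρ
    rw [e2_eq, sub_self, norm_zero]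
    exact hρ0
  refine Y96.HP.pos_pers hF hC1 (hU.inter hVo) (subset_inter hCU hCV)
    (fun D hD hDU => hiso D hD (hDU.trans inter_subset_left))
    (G := fun _ D => diam C / l ≤ diam D ∧ diam D ≤ l * diam C) ?_ Real.pi_pos
  intro a γ ε₀ hε₀ ha0 hac hγ hC0
  have hx' := hx
  have hy' := hy
  rw [hC0] at hx' hy'
  obtain ⟨s₁, hs₁⟩ := hx'
  obtain ⟨t₁, ht₁⟩ := hy'
  have hnh : Ioo (-ε₀) ε₀ ∈ nhds (0:ℝ) := Ioo_mem_nhds (by linarith) hε₀
  have hcat : ∀ u : ℝ, ContinuousAt (fun s => γ s u) 0 := by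
    intro u
    have h1 : ContinuousAt (fun q : ℝ × ℝ => γ q.1 q.2) (0, u) :=
      hγ.continuousAt (prod_mem_nhds hnh Filter.univ_mem)
    exact h1.comp (f := fun s : ℝ => (s, u)) (by fun_prop)
  have hce : ContinuousAt (fun s => e2 (γ s s₁) (γ s t₁)) 0 :=
    e2_cont.continuousAt.comp (f := fun s => (γ s s₁, γ s t₁)) ((hcat s₁).prodMk (hcat t₁))
  have hev : ∀ᶠ s in nhds (0:ℝ), diam C / l < e2 (γ s s₁) (γ s t₁) := by
    refine hce.eventually (lt_mem_nhds ?_)
    simp only [hs₁, ht₁, hxy]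
    rw [div_lt_iff₀ hl0]
    nlinarith
  obtain ⟨δ, hδ, hb⟩ := Metric.eventually_nhds_iff.1 hev
  refine ⟨min δ ε₀, lt_min hδ hε₀, min_le_right _ _, fun s hs hsub => ?_⟩
  have hsδ : dist s 0 < δ := by
    rw [Real.dist_eq, sub_zero, abs_lt]
    exact ⟨by linarith [hs.1, min_le_left δ ε₀], by linarith [hs.2, min_le_left δ ε₀]⟩
  have h1 := hb hsδ
  -- an upper bound for the distances
  have hupper : ∀ u ∈ range (γ s), ∀ v ∈ range (γ s), e2 u v ≤ l * diam C := by
    intro u hu v hv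
    have hu' := (hsub hu).2
    have hv' := (hsub hv).2
    rw [hV, mem_iUnion₂] at hu' hv'
    obtain ⟨c, hc, huc⟩ := hu'
    obtain ⟨c', hc', hvc⟩ := hv'
    have h2 := e2_tri u c v
    have h3 := e2_tri c c' v
    have h4 := hub c hc c' hc'
    rw [e2_comm c' v] at h3
    have h5 : e2 u c < ρ := huc
    have h6 : e2 v c' < ρ := hvc
    have h7 : l * diam C = diam C + 2 * ρ := by rw [hρ]; ring
    linarith
  show diam C / l ≤ diam (range (γ s)) ∧ diam (range (γ s)) ≤ l * diam C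
  unfold diam
  constructor
  · refine h1.le.trans (le_csSup ⟨l * diam C, ?_⟩ ⟨_, ⟨s₁, rfl⟩, _, ⟨t₁, rfl⟩, rfl⟩)
    rintro _ ⟨u, hu, v, hv, rfl⟩
    exact hupper u hu v hv
  · refine csSup_le ⟨_, _, ⟨s₁, rfl⟩, _, ⟨t₁, rfl⟩, rfl⟩ ?_
    rintro _ ⟨u, hu, v, hv, rfl⟩
    exact hupper u hu v hv

/-- the number of the surviving closed orbits -/
lemma count (hP : P.totalDegree ≤ n) (hQ : Q.totalDegree ≤ n) {l r R η : ℝ} (hl : 0 < l)
    (hr : 0 < r) (hR : r ≤ R) (hη : 0 < η) (hη' : η < Real.pi) :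
    ({C | C ∈ between P Q r R ∧ (Survives P Q l η C ∨ Survives P Q l (-η) C)}.encard : ℝ≥0∞) ≤
      ENNReal.ofReal (28 * Real.pi * l * (1 + l) * n ^ 2 * (1 + Real.logb 2 (R / r)) / η) := by
  refine le_trans (ENat.toENNReal_le.2 (encard_le_encard ?_))
    (N224.Hil.main_bound hP hQ hη hη' hl hr hR)
  rintro C ⟨⟨-, h1, h2⟩, h3⟩
  exact ⟨h1, h2, h3⟩

/-- the number of the surviving closed orbits of one size -/
lemma count1 (hP : P.totalDegree ≤ n) (hQ : Q.totalDegree ≤ n) {l r η : ℝ} (hl : 0 < l)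
    (hr : 0 < r) (hη : 0 < η) (hη' : η < Real.pi) :
    ({C | C ∈ between P Q r (2 * r) ∧
      (Survives P Q l η C ∨ Survives P Q l (-η) C)}.encard : ℝ≥0∞) ≤
      ENNReal.ofReal (28 * Real.pi * l * (1 + l) * n ^ 2 / η) := by
  refine le_trans (ENat.toENNReal_le.2 (encard_le_encard ?_))
    (N224.Hil.scale_bound hP hQ hη hη' hl hr)
  rintro C ⟨⟨-, h1, h2⟩, h3⟩
  exact ⟨h1, h2, h3⟩

/-- shorter angles -/
lemma survives_mono {l η η' : ℝ} {C : Set (ℝ × ℝ)} (h0 : 0 < η') (h1 : η' ≤ η) :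
    (Survives P Q l η C → Survives P Q l η' C) ∧
      (Survives P Q l (-η) C → Survives P Q l (-η') C) := by
  constructor
  · intro h
    have h2 := W960.HP.persG_mono (σ := 1) (Or.inl rfl) h0 h1
      (by rw [one_mul]; exact (survives_iff P Q l η C).1 h)
    rw [one_mul] at h2
    exact (survives_iff P Q l η' C).2 h2
  · intro h
    have h2 := W960.HP.persG_mono (σ := -1) (Or.inr rfl) h0 h1
      (by rw [neg_one_mul]; exact (survives_iff P Q l (-η) C).1 h)
    rw [neg_one_mul] at h2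
    exact (survives_iff P Q l (-η') C).2 h2

/-- a closed orbit with long survival survives up to half of it in one direction -/
lemma of_survival {l t : ℝ} (ht : 0 < t) {C : Set (ℝ × ℝ)}
    (h : ENNReal.ofReal t < survival P Q l C) :
    t / 2 < Real.pi ∧ (Survives P Q l (t / 2) C ∨ Survives P Q l (-(t / 2)) C) := by
  have h1 : ∃ η : ℝ, η ∈ Ioo (-Real.pi) Real.pi ∧ Survives P Q l η C ∧ t / 2 < |η| := by
    by_contra hcon
    push Not at hcon
    have h2 : {η : ℝ | η ∈ Ioo (-Real.pi) Real.pi ∧ Survives P Q l η C} ⊆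
        Icc (-(t / 2)) (t / 2) := fun η hη => abs_le.1 (hcon η hη.1 hη.2)
    have h3 := measure_mono (μ := (volume : Measure ℝ)) h2
    rw [Real.volume_Icc, show t / 2 - -(t / 2) = t by ring] at h3
    exact absurd h (not_lt.2 h3)
  obtain ⟨η, hη, hS, hlt⟩ := h1
  have hη2 : |η| < Real.pi := abs_lt.2 hη
  refine ⟨hlt.trans hη2, ?_⟩
  rcases le_total 0 η with h0 | h0
  · rw [abs_of_nonneg h0] at hlt
    exact Or.inl ((survives_mono (by positivity) hlt.le).1 hS)
  · rw [abs_of_nonpos h0] at hlt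
    refine Or.inr ((survives_mono (η := -η) (by positivity) hlt.le).2 ?_)
    rw [neg_neg]
    exact hS

/-- the sum of the squares from the weak bound -/
lemma sum_sq_le {ι : Type*} (s : Finset ι) (f : ι → ℝ) {L K : ℝ} (hL : 0 ≤ L)
    (hf0 : ∀ i, 0 ≤ f i) (hf : ∀ i ∈ s, f i ≤ L)
    (hK : ∀ t : ℝ, 0 < t → ((s.filter fun i => t < f i).card : ℝ) * t ≤ K) :
    ∑ i ∈ s, f i ^ 2 ≤ 2 * L * K := by
  classical
  have h1 : ∀ i ∈ s, f i ^ 2 = ∫ t in (0:ℝ)..L, (Iio (f i)).indicator (fun t => 2 * t) t := by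
    intro i hi
    have hint : ∀ a b : ℝ, IntervalIntegrable ((Iio (f i)).indicator fun t => 2 * t)
        volume a b := by
      intro a b
      have h2 : IntervalIntegrable (fun t : ℝ => 2 * t) volume a b :=
        (by fun_prop : Continuous fun t : ℝ => 2 * t).intervalIntegrable a b
      rw [intervalIntegrable_iff] at h2 ⊢
      exact h2.indicator measurableSet_Iio
    rw [← intervalIntegral.integral_add_adjacent_intervals (hint 0 (f i)) (hint (f i) L)]
    have e1 : ∫ t in (0:ℝ)..f i, (Iio (f i)).indicator (fun t => 2 * t) t =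
        ∫ t in (0:ℝ)..f i, 2 * t := by
      apply intervalIntegral.integral_congr_ae
      have h3 : ∀ᵐ t : ℝ, t ≠ f i := by
        rw [ae_iff]
        simp
      filter_upwards [h3] with t ht htm
      rw [uIoc_of_le (hf0 i)] at htm
      rw [indicator_of_mem]
      exact lt_of_le_of_ne htm.2 ht
    have e2 : ∫ t in f i..L, (Iio (f i)).indicator (fun t => 2 * t) t = 0 := by
      have h3 : ∫ t in f i..L, (Iio (f i)).indicator (fun t => 2 * t) t =
          ∫ t in f i..L, (0:ℝ) := by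
        apply intervalIntegral.integral_congr
        intro t ht
        rw [uIcc_of_le (hf i hi)] at ht
        exact indicator_of_notMem (show t ∉ Iio (f i) from not_lt.2 ht.1) _
      rw [h3, intervalIntegral.integral_zero]
    rw [e1, e2, add_zero, intervalIntegral.integral_const_mul, integral_id]
    ring
  rw [Finset.sum_congr rfl h1]
  have hint : ∀ i ∈ s, IntervalIntegrable ((Iio (f i)).indicator fun t : ℝ => 2 * t)
      volume 0 L := by
    intro i _
    have h2 : IntervalIntegrable (fun t : ℝ => 2 * t) volume 0 L :=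
      (by fun_prop : Continuous fun t : ℝ => 2 * t).intervalIntegrable 0 L
    rw [intervalIntegrable_iff] at h2 ⊢
    exact h2.indicator measurableSet_Iio
  rw [← intervalIntegral.integral_finsetSum hint]
  have h4 : ∫ t in (0:ℝ)..L, ∑ i ∈ s, (Iio (f i)).indicator (fun t : ℝ => 2 * t) t ≤
      ∫ _ in (0:ℝ)..L, 2 * K := by
    apply intervalIntegral.integral_mono_on_of_le_Ioo hL
    · have h5 := IntervalIntegrable.sum s hint
      have h6 : (fun t : ℝ => ∑ i ∈ s, (Iio (f i)).indicator (fun t : ℝ => 2 * t) t) =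
          ∑ i ∈ s, (Iio (f i)).indicator (fun t : ℝ => 2 * t) := by
        funext t
        rw [Finset.sum_apply]
      rw [h6]
      exact h5
    · exact intervalIntegrable_const
    · intro t ht
      have h5 : ∑ i ∈ s, (Iio (f i)).indicator (fun t => 2 * t) t =
          ((s.filter fun i => t < f i).card : ℝ) * (2 * t) := by
        rw [Finset.card_filter, Nat.cast_sum, Finset.sum_mul]
        refine Finset.sum_congr rfl fun i _ => ?_
        by_cases h : t < f i
        · rw [indicator_of_mem (show t ∈ Iio (f i) from h), if_pos h]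
          simp
        · rw [indicator_of_notMem (show t ∉ Iio (f i) from h), if_neg h]
          simp
      rw [h5]
      have h6 := hK t ht.1
      linarith
  refine h4.trans (le_of_eq ?_)
  simp
  ring

/-- the sum of the squares of the survivals -/
lemma squares (hP : P.totalDegree ≤ n) (hQ : Q.totalDegree ≤ n) {l r R : ℝ} (hl : 0 < l)
    (hr : 0 < r) (hR : r ≤ R) : ∑' C : between P Q r R, survival P Q l C ^ 2 ≤
      ENNReal.ofReal (224 * Real.pi ^ 2 * l * (1 + l) * n ^ 2 * (1 + Real.logb 2 (R / r))) := by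
  classical
  have hπ := Real.pi_pos
  have hlog : 0 ≤ Real.logb 2 (R / r) := Real.logb_nonneg (by norm_num) (by
    rw [le_div_iff₀ hr, one_mul]
    exact hR)
  obtain ⟨K, hK⟩ : ∃ K : ℝ, K = 28 * Real.pi * l * (1 + l) * n ^ 2 *
    (1 + Real.logb 2 (R / r)) := ⟨_, rfl⟩
  have hK0 : 0 ≤ K := by rw [hK]; positivity
  have hle : ∀ C, survival P Q l C ≤ ENNReal.ofReal (2 * Real.pi) := by
    intro C
    refine (measure_mono (show {η : ℝ | η ∈ Ioo (-Real.pi) Real.pi ∧ Survives P Q l η C} ⊆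
      Ioo (-Real.pi) Real.pi from fun η hη => hη.1)).trans ?_
    rw [Real.volume_Ioo]
    exact ENNReal.ofReal_le_ofReal (by linarith)
  have hfin : ∀ C, survival P Q l C ≠ ⊤ := fun C => ((hle C).trans_lt ENNReal.ofReal_lt_top).ne
  rw [ENNReal.tsum_eq_iSup_sum]
  refine iSup_le fun s => ?_
  have h1 : ∑ C ∈ s, survival P Q l C ^ 2 =
      ENNReal.ofReal (∑ C ∈ s, (survival P Q l C).toReal ^ 2) := by
    rw [ENNReal.ofReal_sum_of_nonneg fun C _ => by positivity]
    refine Finset.sum_congr rfl fun C _ => ?_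
    rw [ENNReal.ofReal_pow ENNReal.toReal_nonneg, ENNReal.ofReal_toReal (hfin C)]
  rw [h1]
  apply ENNReal.ofReal_le_ofReal
  have h2 := sum_sq_le s (fun C : between P Q r R => (survival P Q l C).toReal)
    (L := 2 * Real.pi) (K := 2 * K) (by positivity) (fun C => ENNReal.toReal_nonneg)
    (fun C _ => by
      have := ENNReal.toReal_mono ENNReal.ofReal_ne_top (hle C)
      rwa [ENNReal.toReal_ofReal (by positivity)] at this) (by
    intro t ht
    rcases (s.filter fun C : between P Q r R => t < (survival P Q l C).toReal).eq_empty_or_nonempty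
      with he | ⟨C₀, hC₀⟩
    · rw [he]
      simp
      positivity
    have hS : ∀ C ∈ s.filter fun C : between P Q r R => t < (survival P Q l C).toReal,
        t / 2 < Real.pi ∧ (Survives P Q l (t / 2) C ∨ Survives P Q l (-(t / 2)) C) := by
      intro C hC
      apply of_survival ht
      have h3 := (Finset.mem_filter.1 hC).2
      rw [← ENNReal.ofReal_toReal (hfin C)]
      exact (ENNReal.ofReal_lt_ofReal_iff (ht.trans h3)).2 h3
    have h4 := (hS C₀ hC₀).1
    have h5 := count hP hQ hl hr hR (η := t / 2) (by positivity) h4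
    have h6 : (((s.filter fun C : between P Q r R => t < (survival P Q l C).toReal).card : ℕ∞) :
        ℝ≥0∞) ≤ ({C | C ∈ between P Q r R ∧
          (Survives P Q l (t / 2) C ∨ Survives P Q l (-(t / 2)) C)}.encard : ℝ≥0∞) := by
      apply ENat.toENNReal_le.2
      rw [← Finset.card_map (Function.Embedding.subtype _), ← Set.encard_coe_eq_coe_finsetCard]
      apply encard_le_encard
      intro C hC
      rw [Finset.mem_coe, Finset.mem_map] at hC
      obtain ⟨C', hC', rfl⟩ := hC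
      exact ⟨C'.2, (hS C' hC').2⟩
    have h7 := h6.trans h5
    have h8 : (((s.filter fun C : between P Q r R =>
        t < (survival P Q l C).toReal).card : ℕ∞) : ℝ≥0∞) =
        ENNReal.ofReal ((s.filter fun C : between P Q r R =>
          t < (survival P Q l C).toReal).card : ℝ) := by
      rw [ENNReal.ofReal_natCast]
      simp
    rw [h8, ← hK, ENNReal.ofReal_le_ofReal_iff (by positivity), le_div_iff₀ (by positivity)] at h7
    linarith)
  refine h2.trans (le_of_eq ?_)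
  rw [hK]
  ring

/-- all sizes -/
lemma all_sizes (hP : P.totalDegree ≤ n) (hQ : Q.totalDegree ≤ n) {l η : ℝ} (hl : 0 < l)
    (hη : 0 < η) (hη' : η < Real.pi) :
    ∑' C : {C | C ∈ closedOrbits P Q ∧ (Survives P Q l η C ∨ Survives P Q l (-η) C)},
        (ENNReal.ofReal ((1 + |Real.logb 2 (diam C)|) ^ 2))⁻¹ ≤
      ENNReal.ofReal (28 / 3 * Real.pi ^ 3 * l * (1 + l) * n ^ 2 / η) := by
  have hπ := Real.pi_pos
  -- dyadic scales
  obtain ⟨A, hA⟩ : ∃ A : ℝ → Set (Set (ℝ × ℝ)), A = fun r => {C | C ∈ between P Q r (2 * r) ∧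
    (Survives P Q l η C ∨ Survives P Q l (-η) C)} := ⟨_, rfl⟩
  obtain ⟨S, hS⟩ : ∃ S : ℕ → Set (Set (ℝ × ℝ)), S = fun k : ℕ =>
    A (2 ^ (k : ℝ)) ∪ A (2 ^ (-(k : ℝ) - 1)) := ⟨_, rfl⟩
  have e1 : ∀ k : ℕ, (2:ℝ) ^ ((k : ℝ) + 1) = 2 * 2 ^ (k : ℝ) := by
    intro k
    rw [Real.rpow_add (by norm_num), Real.rpow_one, mul_comm]
  have e2 : ∀ k : ℕ, (2:ℝ) ^ (-(k : ℝ)) = 2 * 2 ^ (-(k : ℝ) - 1) := by
    intro k
    rw [Real.rpow_sub (by norm_num), Real.rpow_one]
    ring
  have hcov : {C | C ∈ closedOrbits P Q ∧ (Survives P Q l η C ∨ Survives P Q l (-η) C)} ⊆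
      ⋃ k, S k := by
    rintro C ⟨hC, hsv⟩
    obtain ⟨-, -, hd⟩ := orbit_facts hC
    have hpow : (2:ℝ) ^ Real.logb 2 (diam C) = diam C :=
      Real.rpow_logb (by norm_num) (by norm_num) hd
    obtain ⟨u, hu⟩ : ∃ u : ℝ, u = Real.logb 2 (diam C) := ⟨_, rfl⟩
    rw [← hu] at hpow
    rw [mem_iUnion]
    refine ⟨⌊|u|⌋₊, ?_⟩
    have h1 := Nat.floor_le (abs_nonneg u)
    have h2 := Nat.lt_floor_add_one |u|
    rw [hS]
    rcases le_or_gt 0 u with h0 | h0
    · left
      rw [abs_of_nonneg h0] at h1 h2 ⊢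
      rw [hA]
      refine ⟨⟨hC, ?_, ?_⟩, hsv⟩
      · rw [← hpow]
        exact Real.rpow_le_rpow_of_exponent_le (by norm_num) h1
      · rw [← e1, ← hpow]
        exact Real.rpow_le_rpow_of_exponent_le (by norm_num) h2.le
    · right
      rw [abs_of_neg h0] at h1 h2 ⊢
      rw [hA]
      refine ⟨⟨hC, ?_, ?_⟩, hsv⟩
      · rw [← hpow]
        exact Real.rpow_le_rpow_of_exponent_le (by norm_num) (by linarith)
      · rw [← e2, ← hpow]
        exact Real.rpow_le_rpow_of_exponent_le (by norm_num) (by linarith)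
  obtain ⟨f, hf⟩ : ∃ f : Set (ℝ × ℝ) → ℝ≥0∞, f = fun C =>
    (ENNReal.ofReal ((1 + |Real.logb 2 (diam C)|) ^ 2))⁻¹ := ⟨_, rfl⟩
  obtain ⟨K, hK⟩ : ∃ K : ℝ, K = 28 * Real.pi * l * (1 + l) * n ^ 2 / η := ⟨_, rfl⟩
  have hK0 : 0 ≤ K := by rw [hK]; positivity
  -- one scale
  have hone : ∀ (k : ℕ) (r : ℝ), 0 < r → (∀ d, r ≤ d → d ≤ 2 * r → (k : ℝ) ≤ |Real.logb 2 d|) →
      ∑' C : A r, f C ≤ ENNReal.ofReal (K * (1 / ((k : ℝ) + 1) ^ 2)) := by
    intro k r hr hk
    have h1 : ∑' C : A r, f C ≤ ∑' _ : A r, (ENNReal.ofReal (((k : ℝ) + 1) ^ 2))⁻¹ := by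
      refine ENNReal.tsum_le_tsum fun C => ?_
      rw [hf]
      simp only
      refine ENNReal.inv_le_inv.2 (ENNReal.ofReal_le_ofReal ?_)
      have hC : (C : Set (ℝ × ℝ)) ∈ {C | C ∈ between P Q r (2 * r) ∧
          (Survives P Q l η C ∨ Survives P Q l (-η) C)} := by
        have hC' := C.2
        simp only [hA] at hC'
        exact hC'
      have h2 := hk _ hC.1.2.1 hC.1.2.2
      exact pow_le_pow_left₀ (by positivity) (by linarith) 2
    refine h1.trans ?_
    rw [ENNReal.tsum_set_const]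
    have h2 := count1 hP hQ hl hr hη hη'
    rw [← hK] at h2
    have h3 : ((A r).encard : ℝ≥0∞) ≤ ENNReal.ofReal K := by
      rw [hA]
      exact h2
    refine (mul_le_mul_left h3 _).trans (le_of_eq ?_)
    rw [← ENNReal.ofReal_inv_of_pos (by positivity), ← ENNReal.ofReal_mul hK0]
    congr 1
    field_simp
  have hk : ∀ k : ℕ, ∑' C : S k, f C ≤
      ENNReal.ofReal (2 * K * (1 / ((k : ℝ) + 1) ^ 2)) := by
    intro k
    rw [hS]
    refine (ENNReal.tsum_union_le f _ _).trans ?_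
    have h1 := hone k (2 ^ (k : ℝ)) (by positivity) (by
      intro d hd1 _
      have h2 : (k : ℝ) ≤ Real.logb 2 d := by
        rw [Real.le_logb_iff_rpow_le (by norm_num) (lt_of_lt_of_le (by positivity) hd1)]
        exact hd1
      exact h2.trans (le_abs_self _))
    have h3 := hone k (2 ^ (-(k : ℝ) - 1)) (by positivity) (by
      intro d hd1 hd2
      rw [← e2] at hd2
      have h2 : Real.logb 2 d ≤ -(k : ℝ) := by
        rw [Real.logb_le_iff_le_rpow (by norm_num) (lt_of_lt_of_le (by positivity) hd1)]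
        exact hd2
      have h4 := neg_le_abs (Real.logb 2 d)
      linarith)
    refine (add_le_add h1 h3).trans (le_of_eq ?_)
    rw [← ENNReal.ofReal_add (by positivity) (by positivity)]
    congr 1
    ring
  have hsum : HasSum (fun k : ℕ => 2 * K * (1 / ((k : ℝ) + 1) ^ 2))
      (2 * K * (Real.pi ^ 2 / 6)) := by
    refine HasSum.mul_left _ ?_
    have h1 := hasSum_zeta_two
    have h2 := (hasSum_nat_add_iff' (f := fun k : ℕ => 1 / (k : ℝ) ^ 2) 1).2 h1
    simp only [Finset.sum_range_one, Nat.cast_add, Nat.cast_one] at h2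
    simpa using h2
  have hfin : ∑' C : {C | C ∈ closedOrbits P Q ∧
      (Survives P Q l η C ∨ Survives P Q l (-η) C)}, f C ≤
      ENNReal.ofReal (2 * K * (Real.pi ^ 2 / 6)) :=
    calc _ ≤ ∑' C : ⋃ k, S k, f C := ENNReal.tsum_mono_subtype f hcov
      _ ≤ ∑' k, ∑' C : S k, f C := ENNReal.tsum_iUnion_le_tsum f S
      _ ≤ ∑' k : ℕ, ENNReal.ofReal (2 * K * (1 / ((k : ℝ) + 1) ^ 2)) :=
          ENNReal.tsum_le_tsum hk
      _ = ENNReal.ofReal (2 * K * (Real.pi ^ 2 / 6)) := by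
          rw [← ENNReal.ofReal_tsum_of_nonneg (fun k => by positivity) hsum.summable,
            hsum.tsum_eq]
  rw [show 2 * K * (Real.pi ^ 2 / 6) = 28 / 3 * Real.pi ^ 3 * l * (1 + l) * n ^ 2 / η by
    rw [hK]; ring, hf] at hfin
  exact hfin

/-- **The number of surviving limit cycles grows like the square of the degree.** For every
polynomial vector field `(P, Q)` of degree at most `n`:

* for all `l ≥ 1`, `0 < r ≤ R` and `0 < η < π` at most
  `28 π l (1 + l) n² (1 + log₂ (R / r)) / η` closed orbits with diameter in `[r, R]` survive the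
  rotations of the field up to `η` or up to `-η` with size factor `l`;
* the sum over all these closed orbits, of any size, of `(1 + |log₂ (diam C)|)⁻²` is at most
  `(28 π³ / 3) l (1 + l) n² / η`;
* the sum of the squares of the survival lengths of all closed orbits with diameter in `[r, R]` is
  at most `224 π² l (1 + l) n² (1 + log₂ (R / r))`;
* every limit cycle has positive survival length, for every `l > 1`.

Conversely, for every `k ≥ 1` there are `r > 0` and a polynomial vector field of degree at most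
`16 k - 1` with at least `4 k²` limit cycles with diameter in `[r, 4 r]` which survive all
rotations by angles less than `π / 4` in absolute value, with size factor `2`. -/
theorem result :
    (∀ (n : ℕ) (P Q : MvPolynomial (Fin 2) ℝ), P.totalDegree ≤ n → Q.totalDegree ≤ n →
      (∀ l r R η : ℝ, 1 ≤ l → 0 < r → r ≤ R → 0 < η → η < Real.pi →
        ({C | C ∈ between P Q r R ∧
          (Survives P Q l η C ∨ Survives P Q l (-η) C)}.encard : ℝ≥0∞) ≤
          ENNReal.ofReal (28 * Real.pi * l * (1 + l) * n ^ 2 * (1 + Real.logb 2 (R / r)) / η)) ∧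
      (∀ l η : ℝ, 1 ≤ l → 0 < η → η < Real.pi →
        ∑' C : {C | C ∈ closedOrbits P Q ∧ (Survives P Q l η C ∨ Survives P Q l (-η) C)},
          (ENNReal.ofReal ((1 + |Real.logb 2 (diam C)|) ^ 2))⁻¹ ≤
          ENNReal.ofReal (28 / 3 * Real.pi ^ 3 * l * (1 + l) * n ^ 2 / η)) ∧
      (∀ l r R : ℝ, 1 ≤ l → 0 < r → r ≤ R →
        ∑' C : between P Q r R, survival P Q l C ^ 2 ≤
          ENNReal.ofReal (224 * Real.pi ^ 2 * l * (1 + l) * n ^ 2 *
            (1 + Real.logb 2 (R / r)))) ∧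
      (∀ l : ℝ, 1 < l → ∀ C ∈ limitCycles P Q, 0 < survival P Q l C)) ∧
    (∀ k : ℕ, 1 ≤ k → ∃ P Q : MvPolynomial (Fin 2) ℝ, P.totalDegree ≤ 16 * k - 1 ∧
      Q.totalDegree ≤ 16 * k - 1 ∧ ∃ r : ℝ, 0 < r ∧
      (4 * k ^ 2 : ℕ∞) ≤ {C | C ∈ limitCycles P Q ∧ r ≤ diam C ∧ diam C ≤ 4 * r ∧
        ∀ η : ℝ, 0 < |η| → |η| < Real.pi / 4 → Survives P Q 2 η C}.encard) := by
  refine ⟨fun n P Q hP hQ => ⟨fun l r R η hl hr hR hη hη' => ?_, fun l η hl hη hη' => ?_,
    fun l r R hl hr hR => ?_, fun l hl C hC => pos hl hC⟩, fun k hk => ?_⟩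
  · exact count hP hQ (by linarith) hr hR hη hη'
  · exact all_sizes hP hQ (by linarith) hη hη'
  · exact squares hP hQ (by linarith) hr hR
  · obtain ⟨P, Q, hP, hQ, r, hr, h⟩ := N224.Hil.lb k hk
    refine ⟨P, Q, hP, hQ, r, hr, h.trans (encard_le_encard ?_)⟩
    rintro C ⟨h1, ⟨U, h2, h3, h4⟩, h5, h6, h7⟩
    exact ⟨⟨h1, U, h2, h3, h4⟩, h5, h6, h7⟩

end Pool.Agent.Results.MP_95e7ec_an.SharpSurvival
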